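import Pool.Agent.W548.MQ.Gen3

set_option maxHeartbeats 400000
set_option linter.unusedSectionVars false

namespace W548.MQ.DecBackup

universe u

variable {L : Type u} [Field L]

lemma I2_le {x : W L} (hx : x ∈ (I L) ^ 2) : rk L x = 0 := by
  rw [show (2 : ℕ) = 1 + 1 from rfl, Submodule.pow_succ, Submodule.pow_one] at hx
  refine Submodule.mul_induction_on hx ?_ ?_
  · intro m hm n _
    rw [I, RingHom.mem_ker] at hm
    rw [map_mul, hm, zero_mul]
  · intro a b ha hb
    rw [map_add, ha, hb, add_zero]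

/-- Congruence modulo `I²`. -/
def Cg (x y : W L) : Prop := x - y ∈ (I L) ^ 2

lemma Cg.refl (x : W L) : Cg x x := by
  unfold Cg; rw [sub_self]; exact Ideal.zero_mem _

lemma Cg.symm {x y : W L} (h : Cg x y) : Cg y x := by
  unfold Cg at *; rw [← neg_sub]; exact (Ideal.neg_mem_iff _).2 h

lemma Cg.trans {x y z : W L} (h : Cg x y) (h' : Cg y z) : Cg x z := by
  unfold Cg at *
  have : x - z = (x - y) + (y - z) := by ring
  rw [this]; exact Ideal.add_mem _ h h'

lemma Cg.add {x y z t : W L} (h : Cg x y) (h' : Cg z t) : Cg (x + z) (y + t) := by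
  unfold Cg at *
  have : x + z - (y + t) = (x - y) + (z - t) := by ring
  rw [this]; exact Ideal.add_mem _ h h'

lemma pf_add (a b : Lˣ) : Cg (pf a + pf b : W L) (pf (a * b)) := by
  unfold Cg
  rw [pf_mul]
  have : (pf a + pf b - (pf a + pf b - pf a * pf b) : W L) = pf a * pf b := by ring
  rw [this]; exact pf_mul_mem _ _

lemma form_cg (a : Lˣ) : Cg (form a : W L) (1 + pf a) := by
  unfold Cg
  have h1 : (form a - (1 + pf a) : W L) = -(pf a + pf a) := by rw [pf_eq]; ring
  rw [h1, pf_add_self]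
  exact (Ideal.neg_mem_iff _).2 (pf_mul_mem _ _)

lemma two_eq : (1 + 1 : W L) = pf (-1) := by
  rw [pf_eq, form_neg, form_one]; ring

/-- The two normal forms modulo `I²`. -/
def NF (w : W L) : Prop := (∃ d : Lˣ, Cg w (pf d)) ∨ (∃ d : Lˣ, Cg w (1 + pf d))

lemma NF.add {x y : W L} (hx : NF x) (hy : NF y) : NF (x + y) := by
  rcases hx with ⟨a, ha⟩ | ⟨a, ha⟩ <;> rcases hy with ⟨b, hb⟩ | ⟨b, hb⟩
  · exact Or.inl ⟨a * b, (ha.add hb).trans (pf_add a b)⟩
  · refine Or.inr ⟨a * b, (ha.add hb).trans ?_⟩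
    have : (pf a + (1 + pf b) : W L) = 1 + (pf a + pf b) := by ring
    rw [this]; exact (Cg.refl 1).add (pf_add a b)
  · refine Or.inr ⟨a * b, (ha.add hb).trans ?_⟩
    have : (1 + pf a + pf b : W L) = 1 + (pf a + pf b) := by ring
    rw [this]; exact (Cg.refl 1).add (pf_add a b)
  · refine Or.inl ⟨-1 * (a * b), (ha.add hb).trans ?_⟩
    have : (1 + pf a + (1 + pf b) : W L) = pf (-1) + (pf a + pf b) := by
      rw [← two_eq]; ring
    rw [this]
    exact ((Cg.refl _).add (pf_add a b)).trans (pf_add (-1) (a * b))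

lemma NF.zero : NF (0 : W L) := by
  refine Or.inl ⟨1, ?_⟩
  have : (pf (1 : Lˣ) : W L) = 0 := by rw [pf_eq, form_one, sub_self]
  rw [this]; exact Cg.refl 0

lemma NF.form (a : Lˣ) : NF (form a : W L) := Or.inr ⟨a, form_cg a⟩

lemma NF.zsmul (a : Lˣ) (n : ℤ) : NF (n • (W548.MQ.form a : W L)) := by
  induction n using Int.induction_on with
  | zero => rw [zero_zsmul]; exact NF.zero
  | succ i ih => rw [add_zsmul, one_zsmul]; exact ih.add (NF.form a)
  | pred i ih =>
    rw [sub_zsmul, one_zsmul, ← form_neg]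
    exact ih.add (NF.form _)

lemma NF.all (w : W L) : NF w := by
  obtain ⟨x, rfl⟩ := Ideal.Quotient.mk_surjective w
  induction x using MonoidAlgebra.induction_linear with
  | zero => rw [map_zero]; exact NF.zero
  | add x y hx hy => rw [map_add]; exact hx.add hy
  | single a n =>
    have : (MonoidAlgebra.single a n : MonoidAlgebra ℤ Lˣ) = n • e a := by
      rw [e, MonoidAlgebra.smul_single, smul_eq_mul, mul_one]
    rw [this, map_zsmul]
    exact NF.zsmul a n

theorem t_DEC : S_DEC.{u} := by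
  intro L _ x hx
  rcases NF.all x with h | ⟨d, hd⟩
  · exact h
  · exfalso
    have h1 := I2_le hd
    rw [I, RingHom.mem_ker] at hx
    rw [map_sub, hx, map_add, map_one, pf, map_add, rk_form, rk_form] at h1
    exact absurd h1 (by decide)

end W548.MQ.DecBackup
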