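import Mathlib

/-!
Witt ring of a field of characteristic different from two (standard presentation by one-dimensional
forms), second residue maps, unramified Witt group.
-/

open WithZero IsDedekindDomain

namespace W548.MQ

/-- The one-dimensional form `⟨a⟩` in the group ring `ℤ[Lˣ]`. -/
noncomputable abbrev e {L : Type*} [Field L] (a : Lˣ) : MonoidAlgebra ℤ Lˣ :=
  MonoidAlgebra.single a 1

/-- Defining relations of the Witt ring (characteristic not two): `⟨ab²⟩ = ⟨a⟩`,
`⟨a⟩ + ⟨-a⟩ = 0`, and `⟨a⟩ + ⟨b⟩ = ⟨a+b⟩ + ⟨ab(a+b)⟩` if `a + b ≠ 0`. -/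
inductive Rel (L : Type*) [Field L] : MonoidAlgebra ℤ Lˣ → Prop
  | sq (a b : Lˣ) : Rel L (e (a * b ^ 2) - e a)
  | hyp (a : Lˣ) : Rel L (e a + e (-a))
  | add (a b c : Lˣ) (h : (a : L) + b = c) : Rel L (e a + e b - e c - e (a * b * c))

/-- The Witt ring of `L`. -/
abbrev W (L : Type*) [Field L] : Type _ :=
  MonoidAlgebra ℤ Lˣ ⧸ Ideal.span {x | Rel L x}

/-- The class of the form `⟨a⟩`. -/
noncomputable def form {L : Type*} [Field L] (a : Lˣ) : W L :=
  Ideal.Quotient.mk _ (e a)

/-- The one-fold Pfister form `⟪a⟫ = ⟨1, -a⟩`. -/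
noncomputable def pf {L : Type*} [Field L] (a : Lˣ) : W L := form 1 + form (-a)

/-- The rank modulo two on the group ring: every `⟨a⟩` has rank one. -/
noncomputable def rk0 (L : Type*) [Field L] : MonoidAlgebra ℤ Lˣ →+* ZMod 2 :=
  (MonoidAlgebra.lift ℤ (ZMod 2) Lˣ (1 : Lˣ →* ZMod 2)).toRingHom

lemma rk0_e {L : Type*} [Field L] (a : Lˣ) : rk0 L (e a) = 1 := by
  simp [rk0, e]

/-- The rank modulo two on the Witt ring. -/
noncomputable def rk (L : Type*) [Field L] : W L →+* ZMod 2 :=
  Ideal.Quotient.lift _ (rk0 L) (by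
    intro x hx
    have : Ideal.span {x | Rel L x} ≤ RingHom.ker (rk0 L) := by
      rw [Ideal.span_le]
      rintro y (⟨a, b⟩ | ⟨a⟩ | ⟨a, b, c, h⟩) <;>
      simp only [SetLike.mem_coe, RingHom.mem_ker, map_sub, map_add, rk0_e] <;> decide
    exact this hx)

/-- The fundamental ideal `I(L)`: the classes of forms of even rank. -/
noncomputable def I (L : Type*) [Field L] : Ideal (W L) := RingHom.ker (rk L)

section residue

variable {L : Type*} [Field L] (v : Valuation L ℤᵐ⁰)

/-- The order of `a` for the (additively written) discrete valuation `v`. -/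
def ord (a : Lˣ) : ℤ := - log (v (a : L))

/-- The residue field of `v`. -/
abbrev κ : Type _ := IsLocalRing.ResidueField v.valuationSubring

/-- A `v`-unit as a unit of the valuation ring. -/
def unitOf (x : Lˣ) (h : v (x : L) = 1) : v.valuationSubringˣ where
  val := ⟨x, by rw [Valuation.mem_valuationSubring_iff, h]⟩
  inv := ⟨(x : L)⁻¹, by rw [Valuation.mem_valuationSubring_iff, map_inv₀, h, inv_one]⟩
  val_inv := by ext; simp
  inv_val := by ext; simp

/-- The residue class of a `v`-unit. -/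
noncomputable def resUnit (x : Lˣ) (h : v (x : L) = 1) : (κ v)ˣ :=
  Units.map (IsLocalRing.residue v.valuationSubring).toMonoidHom (unitOf v x h)

lemma v_unit_part (π : Lˣ) (hπ : ord v π = 1) (a : Lˣ) :
    v ((a * π ^ (- ord v a) : Lˣ) : L) = 1 := by
  have h0 : v (a : L) ≠ 0 := (Valuation.ne_zero_iff v).2 a.ne_zero
  have h1 : v (π : L) ≠ 0 := (Valuation.ne_zero_iff v).2 π.ne_zero
  have hπ' : v (π : L) = exp (-1) := by
    have : log (v (π : L)) = -1 := by unfold ord at hπ; omega
    rw [← this, exp_log h1]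
  have ha : v (a : L) = exp (log (v (a : L))) := (exp_log h0).symm
  simp only [Units.val_mul, Units.val_zpow_eq_zpow_val, map_mul, map_zpow₀]
  rw [hπ', ha]
  unfold ord
  rw [← exp_zsmul, ← exp_add]
  simp

/-- Second residue of a one-dimensional form with respect to the uniformizer `π`:
`⟨π^n u⟩ ↦ ⟨ū⟩` for odd `n` and `0` for even `n`. -/
noncomputable def res1 (π : Lˣ) (hπ : ord v π = 1) (a : Lˣ) : W (κ v) :=
  if Odd (ord v a) then form (resUnit v (a * π ^ (- ord v a)) (v_unit_part v π hπ a)) else 0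

end residue

/-- The polynomial `y² - (1 - x²)` over `ℚ[x]`. -/
noncomputable abbrev P : Polynomial (Polynomial ℚ) :=
  Polynomial.X ^ 2 - Polynomial.C (1 - Polynomial.X ^ 2)

/-- The coordinate ring `ℚ[x, y]/(x² + y² - 1)` of the circle. -/
abbrev A : Type := AdjoinRoot P

/-- The coordinate functions of the circle. -/
noncomputable def x : A := AdjoinRoot.of P Polynomial.X
noncomputable def y : A := AdjoinRoot.root P

lemma circle : x ^ 2 + y ^ 2 = 1 := by
  have h : AdjoinRoot.mk P P = 0 := AdjoinRoot.mk_self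
  have h' : y ^ 2 - (1 - x ^ 2) = 0 := by
    rw [← h]
    simp only [P, map_sub, map_pow, AdjoinRoot.mk_X, AdjoinRoot.mk_C, map_one]
    rfl
  linear_combination h'

end W548.MQ
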