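import Pool.Agent.W548.MQ.Gen3

set_option maxHeartbeats 400000
set_option linter.unusedSectionVars false

namespace W548.MQ.Disc2Backup

universe u

variable {L : Type u} [Field L]

/-- The subgroup of squares. -/
def Sq (L : Type u) [Field L] : Subgroup Lˣ := (powMonoidHom (α := Lˣ) 2).range

/-- The square class group as an additive group. -/
def V (L : Type u) [Field L] : Type u := Additive (Lˣ ⧸ Sq L)

instance : AddCommGroup (V L) := inferInstanceAs (AddCommGroup (Additive (Lˣ ⧸ Sq L)))

/-- The class of a unit. -/
def cl (a : Lˣ) : V L := Additive.ofMul ((a : Lˣ) : Lˣ ⧸ Sq L)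

lemma cl_mul (a b : Lˣ) : cl (a * b) = cl a + cl b := rfl

lemma cl_surj (x : V L) : ∃ a : Lˣ, cl a = x := by
  obtain ⟨a, ha⟩ := QuotientGroup.mk_surjective (s := Sq L) (Additive.toMul x)
  exact ⟨a, congrArg Additive.ofMul ha⟩

lemma cl_eq_zero {a : Lˣ} (h : cl a = 0) : ∃ c : Lˣ, a = c ^ 2 := by
  have h1 : ((a : Lˣ) : Lˣ ⧸ Sq L) = 1 := h
  rw [QuotientGroup.eq_one_iff] at h1
  obtain ⟨c, hc⟩ := h1
  exact ⟨c, hc.symm⟩

lemma cl_sq (a : Lˣ) : cl (a ^ 2) = 0 := by
  have : ((a ^ 2 : Lˣ) : Lˣ ⧸ Sq L) = 1 := by
    rw [QuotientGroup.eq_one_iff]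
    exact ⟨a, rfl⟩
  exact this

lemma two_smul_V (x : V L) : (2 : ℕ) • x = 0 := by
  obtain ⟨a, rfl⟩ := cl_surj x
  rw [two_nsmul, ← cl_mul, ← pow_two, cl_sq]

noncomputable instance : Module (ZMod 2) (V L) := AddCommGroup.zmodModule two_smul_V

/-- Additive characters separate square classes. -/
lemma exists_char (t : Lˣ) (ht : ¬ ∃ c : Lˣ, t = c ^ 2) :
    ∃ lam : Lˣ → ZMod 2, (∀ a b, lam (a * b) = lam a + lam b) ∧ lam t ≠ 0 := by
  have hne : cl t ≠ 0 := fun h => ht (cl_eq_zero h)
  have h2 : ∃ f : Module.Dual (ZMod 2) (V L), f (cl t) ≠ 0 := by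
    by_contra h
    push Not at h
    exact hne ((Module.forall_dual_apply_eq_zero_iff (ZMod 2) _).1 h)
  obtain ⟨f, hf⟩ := h2
  refine ⟨fun a => f (cl a), ?_, hf⟩
  intro a b
  change f (cl (a * b)) = _
  rw [cl_mul, map_add]

/-- `±1` in `ℤ/4` from `ℤ/2`. -/
def sgn (z : ZMod 2) : ZMod 4 := if z = 0 then 1 else 3

lemma sgn_add (x y : ZMod 2) : sgn (x + y) = sgn x * sgn y := by
  revert x y; decide

lemma sgn_rel (x y z : ZMod 2) : sgn x + sgn y = sgn z + sgn (x + y + z) := by
  revert x y z; decide

theorem t_DISC2 : S_DISC2.{u} := by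
  intro L _ a b hab
  by_contra hcon
  have ht : ¬ ∃ c : Lˣ, a * b⁻¹ = c ^ 2 := by
    rintro ⟨c, hc⟩
    apply hcon
    refine ⟨c, ?_⟩
    rw [← hc, mul_comm b, inv_mul_cancel_right]
  obtain ⟨lam, hmul, hlam⟩ := exists_char (a * b⁻¹) ht
  have h1 : lam 1 = 0 := by
    have := hmul 1 1
    rw [mul_one] at this
    simpa using this
  have hinv : ∀ c, lam c⁻¹ = lam c := by
    intro c
    have := hmul c c⁻¹
    rw [mul_inv_cancel, h1] at this
    revert this; generalize lam c = p; generalize lam c⁻¹ = q; revert p q; decide
  have hsq : ∀ c, lam (c ^ 2) = 0 := by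
    intro c
    rw [pow_two, hmul]
    generalize lam c = p; revert p; decide
  have hab' : lam a ≠ lam b := by
    intro h
    apply hlam
    rw [hmul, hinv, h]
    generalize lam b = p; revert p; decide
  have hneg : ∀ c : Lˣ, lam (-c) = lam (-1) + lam c := by
    intro c
    rw [← hmul, neg_mul, one_mul]
  by_cases hm : lam (-1) = 0
  · -- additive case
    obtain ⟨D, hD⟩ := t_LIFT L (ZMod 2) lam
      (fun a b => by rw [hmul, hsq, add_zero])
      (fun a => by
        rw [hneg, hm, zero_add]; generalize lam a = p; revert p; decide)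
      (fun a b c _ => by
        rw [hmul, hmul]
        generalize lam a = p; generalize lam b = q; generalize lam c = r; revert p q r; decide)
    have hDmul : ∀ x y : W L, D (x * y) = rk L x * D y + D x * rk L y := by
      intro x y
      have h1 : ∀ (a : Lˣ) (y : W L),
          D (form a * y) = rk L (form a) * D y + D (form a) * rk L y := by
        intro a y
        have := hom_ext (D.comp (AddMonoidHom.mulLeft (form a)))
          ((AddMonoidHom.mulLeft (rk L (form a))).comp D +
            (AddMonoidHom.mulLeft (D (form a))).comp (rk L).toAddMonoidHom) (by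
            intro b
            change D (form a * form b) =
              rk L (form a) * D (form b) + D (form a) * rk L (form b)
            rw [← form_mul, hD, hD, hD, rk_form, rk_form, hmul]
            ring)
        exact DFunLike.congr_fun this y
      have := hom_ext (D.comp (AddMonoidHom.mulRight y))
          ((AddMonoidHom.mulRight (D y)).comp (rk L).toAddMonoidHom +
            (AddMonoidHom.mulRight (rk L y)).comp D) (fun a => h1 a y)
      exact DFunLike.congr_fun this x
    have hD2 : ∀ x ∈ (I L) ^ 2, D x = 0 := by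
      intro x hx
      rw [show (2 : ℕ) = 1 + 1 from rfl, Submodule.pow_succ, Submodule.pow_one] at hx
      refine Submodule.mul_induction_on hx ?_ ?_
      · intro m hm n hn
        rw [I, RingHom.mem_ker] at hm hn
        rw [hDmul, hm, hn, zero_mul, mul_zero, add_zero]
      · intro a b ha hb
        rw [map_add, ha, hb, add_zero]
    have h3 := hD2 _ hab
    rw [map_sub, pf, pf, map_add, map_add, hD, hD, hD, hneg a, hneg b, hm, zero_add, zero_add] at h3
    apply hab'
    revert h3; generalize lam a = p; generalize lam b = q; generalize lam 1 = r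
    revert p q r; decide
  · -- case `χ(-1) = -1`
    have hm1 : lam (-1) = 1 := by
      revert hm; generalize lam (-1) = p; revert p; decide
    obtain ⟨D, hD⟩ := t_LIFT L (ZMod 4) (fun a => sgn (lam a))
      (fun a b => by
        change sgn (lam (a * b ^ 2)) = sgn (lam a)
        rw [hmul, hsq, add_zero])
      (fun a => by
        change sgn (lam a) + sgn (lam (-a)) = 0
        rw [hneg, hm1]; generalize lam a = p; revert p; decide)
      (fun a b c _ => by
        change sgn (lam a) + sgn (lam b) = sgn (lam c) + sgn (lam (a * b * c))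
        rw [hmul, hmul]
        exact sgn_rel _ _ _)
    have hDf : ∀ a, D (form a) = sgn (lam a) := hD
    have hDmul : ∀ x y : W L, D (x * y) = D x * D y := by
      intro x y
      have h1 : ∀ (a : Lˣ) (y : W L), D (form a * y) = D (form a) * D y := by
        intro a y
        have := hom_ext (D.comp (AddMonoidHom.mulLeft (form a)))
          ((AddMonoidHom.mulLeft (D (form a))).comp D) (by
            intro b
            change D (form a * form b) = D (form a) * D (form b)
            rw [← form_mul, hDf, hDf, hDf, hmul, sgn_add])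
        exact DFunLike.congr_fun this y
      have := hom_ext (D.comp (AddMonoidHom.mulRight y))
          ((AddMonoidHom.mulRight (D y)).comp D) (fun a => h1 a y)
      exact DFunLike.congr_fun this x
    have hpar : ∀ x : W L, (ZMod.castHom (show 2 ∣ 4 by norm_num) (ZMod 2)) (D x) = rk L x := by
      intro x
      have := hom_ext (((ZMod.castHom (show 2 ∣ 4 by norm_num) (ZMod 2)).toAddMonoidHom).comp D)
        (rk L).toAddMonoidHom (by
          intro a
          change (ZMod.castHom (show 2 ∣ 4 by norm_num) (ZMod 2)) (D (form a)) = rk L (form a)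
          rw [hDf, rk_form]
          generalize lam a = p; revert p; decide)
      exact DFunLike.congr_fun this x
    have hD2 : ∀ x ∈ (I L) ^ 2, D x = 0 := by
      intro x hx
      rw [show (2 : ℕ) = 1 + 1 from rfl, Submodule.pow_succ, Submodule.pow_one] at hx
      refine Submodule.mul_induction_on hx ?_ ?_
      · intro m hm n hn
        rw [I, RingHom.mem_ker, ← hpar] at hm hn
        rw [hDmul]
        revert hm hn; generalize D m = p; generalize D n = q; revert p q; decide
      · intro a b ha hb
        rw [map_add, ha, hb, add_zero]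
    have h3 := hD2 _ hab
    rw [map_sub, pf, pf, map_add, map_add, hDf, hDf, hDf, hneg a, hneg b, hm1] at h3
    apply hab'
    revert h3; generalize lam a = p; generalize lam b = q; generalize lam 1 = r
    revert p q r; decide

end W548.MQ.Disc2Backup
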