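import Pool.Agent.W548.MQ.Gen4

open WithZero IsDedekindDomain

set_option maxHeartbeats 1000000
set_option linter.overlappingInstances false
set_option linter.unusedSectionVars false

namespace W548.MQ.Fin

universe u w

/-- The Witt ring of `L` as a type of its own. -/
def W (L : Type u) [Field L] : Type u := W548.MQ.W L

noncomputable instance instCommRingW (L : Type u) [Field L] : CommRing (W L) :=
  Ideal.Quotient.commRing (Ideal.span {x | Rel L x})

/-- The class of the form `⟨a⟩`. -/
noncomputable def form {L : Type u} [Field L] (a : Lˣ) : W L := W548.MQ.form a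

/-- The one-fold Pfister form `⟪a⟫ = ⟨1, -a⟩`. -/
noncomputable def pf {L : Type u} [Field L] (a : Lˣ) : W L := form 1 + form (-a)

/-- The rank modulo two. -/
noncomputable def rk (L : Type u) [Field L] : W L →+* ZMod 2 := W548.MQ.rk L

/-- The fundamental ideal `I(L)`: the classes of forms of even rank. -/
noncomputable def I (L : Type u) [Field L] : Ideal (W L) := RingHom.ker (rk L)

/-- The residue field of `v` as a type of its own. -/
def κ {L : Type u} [Field L] (v : Valuation L ℤᵐ⁰) : Type u := W548.MQ.κ v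

noncomputable instance instFieldκ {L : Type u} [Field L] (v : Valuation L ℤᵐ⁰) : Field (κ v) :=
  IsLocalRing.ResidueField.field v.valuationSubring

/-- Second residue of a one-dimensional form: `⟨π^n u⟩ ↦ ⟨ū⟩` for odd `n`, `0` for even `n`. -/
noncomputable def res1 {L : Type u} [Field L] (v : Valuation L ℤᵐ⁰) (π : Lˣ) (hπ : ord v π = 1)
    (a : Lˣ) : W (κ v) := W548.MQ.res1 v π hπ a

lemma form_mul {L : Type u} [Field L] (a b : Lˣ) : (form (a * b) : W L) = form a * form b :=
  W548.MQ.form_mul a b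

lemma form_one {L : Type u} [Field L] : (form 1 : W L) = 1 := W548.MQ.form_one

lemma form_neg {L : Type u} [Field L] (a : Lˣ) : (form (-a) : W L) = - form a :=
  W548.MQ.form_neg a

lemma form_sq {L : Type u} [Field L] (a : Lˣ) : (form a : W L) * form a = 1 :=
  W548.MQ.form_sq a

lemma form_mul_sq {L : Type u} [Field L] (a c : Lˣ) : (form (a * c ^ 2) : W L) = form a :=
  W548.MQ.form_mul_sq L a c

lemma rk_form {L : Type u} [Field L] (a : Lˣ) : rk L (form a) = 1 := W548.MQ.rk_form a

lemma hom_ext {L : Type u} [Field L] {M : Type w} [AddCommGroup M] (f g : W L →+ M)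
    (h : ∀ a, f (form a) = g (form a)) : f = g :=
  W548.MQ.hom_ext (L := L) (M := M) f g h

theorem t_LIFT (L : Type u) [Field L] (M : Type w) [AddCommGroup M] (g : Lˣ → M)
    (h1 : ∀ a b, g (a * b ^ 2) = g a) (h2 : ∀ a, g a + g (-a) = 0)
    (h3 : ∀ a b c : Lˣ, (a : L) + b = c → g a + g b = g c + g (a * b * c)) :
    ∃ r : W L →+ M, ∀ a, r (form a) = g a :=
  W548.MQ.t_LIFT L M g h1 h2 h3

theorem t_R1 (L : Type u) [Field L] (v : Valuation L ℤᵐ⁰) (π : Lˣ) (hπ : ord v π = 1) :
    (∀ a b, res1 v π hπ (a * b ^ 2) = res1 v π hπ a) ∧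
    (∀ a, res1 v π hπ a + res1 v π hπ (-a) = 0) :=
  W548.MQ.t_R1 L v π hπ

theorem t_R2 (L : Type u) [Field L] (v : Valuation L ℤᵐ⁰) (π : Lˣ) (hπ : ord v π = 1)
    (a b c : Lˣ) (h : (a : L) + b = c) :
    res1 v π hπ a + res1 v π hπ b = res1 v π hπ c + res1 v π hπ (a * b * c) :=
  W548.MQ.t_R2 L v π hπ a b c h

lemma I_one (L : Type u) [Field L] : (I L) ^ 1 = I L := pow_one _

lemma I_sq (L : Type u) [Field L] : (I L) ^ 2 = I L * I L := pow_two _

lemma res1_even {L : Type u} [Field L] (v : Valuation L ℤᵐ⁰) (π : Lˣ) (hπ : ord v π = 1)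
    (a : Lˣ) (h : Even (ord v a)) : res1 v π hπ a = 0 := by
  have : W548.MQ.res1 v π hπ a = 0 := by
    unfold W548.MQ.res1
    rw [if_neg (by rwa [Int.not_odd_iff_even])]
  exact this

lemma rk_res1 {L : Type u} [Field L] (v : Valuation L ℤᵐ⁰) (π : Lˣ) (hπ : ord v π = 1)
    (a : Lˣ) : rk (κ v) (res1 v π hπ a) = (ord v a : ZMod 2) := by
  have : W548.MQ.rk (W548.MQ.κ v) (W548.MQ.res1 v π hπ a) = (ord v a : ZMod 2) := by
    rw [← W548.MQ.res_form]
    exact W548.MQ.eps_form v π hπ a
  exact this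

end W548.MQ.Fin
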