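import Pool.Agent.W548.MQ.Fin2

open WithZero IsDedekindDomain

set_option maxHeartbeats 1000000
set_option linter.overlappingInstances false
set_option linter.unusedSectionVars false

namespace W548.MQ.Fin

universe u w

variable (B : Type u) [CommRing B] [IsDomain B] [IsDedekindDomain B]
  (L : Type w) [Field L] [Algebra B L] [IsFractionRing B L]

/-- The target `I_ur(X)/I²_ur(X)`. -/
abbrev Target : Type _ := (Iur B L 1) ⧸ ((Iur B L 2).addSubgroupOf (Iur B L 1))

variable {B L}

/-- `⟨1, -a⟩` as an element of `I_ur(X)`, for `a ∈ K^1_{M,ur}(X)`. -/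
noncomputable def pfI (a : K1ur B L) : Iur B L 1 :=
  ⟨pf (a : Lˣ), pf_mem_Iur _ (fun v => by rw [a.2 v]; exact Even.zero)⟩

lemma coe_pfI (a : K1ur B L) : ((pfI a : Iur B L 1) : W L) = pf (a : Lˣ) := rfl

lemma mk_eq_iff (p q : Iur B L 1) :
    ((QuotientAddGroup.mk p : Target B L) = QuotientAddGroup.mk q) ↔
      ((q : W L) - (p : W L)) ∈ (I L) ^ 2 := by
  rw [QuotientAddGroup.eq, AddSubgroup.mem_addSubgroupOf, AddSubgroup.coe_add,
    AddSubgroup.coe_neg, neg_add_eq_sub, mem_Iur]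
  constructor
  · exact fun h => h.1
  · intro h
    refine ⟨h, ?_⟩
    exact sub_mem ((mem_Iur B L).1 q.2).2 ((mem_Iur B L).1 p.2).2

lemma mk_pfI_mul (a b : K1ur B L) :
    (QuotientAddGroup.mk (pfI (a * b)) : Target B L) =
      QuotientAddGroup.mk (pfI a) + QuotientAddGroup.mk (pfI b) := by
  rw [← QuotientAddGroup.mk_add, mk_eq_iff, AddSubgroup.coe_add, coe_pfI, coe_pfI, coe_pfI,
    Subgroup.coe_mul, pf_mul]
  have h : (pf (a : Lˣ) + pf (b : Lˣ) - (pf (a : Lˣ) + pf (b : Lˣ) - pf (a : Lˣ) * pf (b : Lˣ)) : W L)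
      = pf (a : Lˣ) * pf (b : Lˣ) := by ring
  rw [h]
  exact pf_mul_mem _ _

lemma mk_pfI_two (a : K1ur B L) :
    (QuotientAddGroup.mk (pfI a) + QuotientAddGroup.mk (pfI a) : Target B L) = 0 := by
  rw [← QuotientAddGroup.mk_add, ← QuotientAddGroup.mk_zero, Eq.comm, mk_eq_iff,
    AddSubgroup.coe_add, AddSubgroup.coe_zero, sub_zero, coe_pfI, pf_add_self]
  exact pf_mul_mem _ _

variable (B L)

/-- The Pfister map `K^1_{M,ur}(X) → I_ur(X)/I²_ur(X)`, `a ↦ ⟨1, -a⟩`. -/
noncomputable def milnor : Additive (K1ur B L) →+ Target B L :=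
  AddMonoidHom.mk' (fun a => (QuotientAddGroup.mk (pfI (Additive.toMul a)) : Target B L))
    (fun a b => mk_pfI_mul (Additive.toMul a) (Additive.toMul b))

lemma milnor_apply (a : Additive (K1ur B L)) :
    milnor B L a = QuotientAddGroup.mk (pfI (Additive.toMul a)) := rfl

/-- The subgroup of squares in `K^1_{M,ur}(X)`, written additively. -/
noncomputable def twice : AddSubgroup (Additive (K1ur B L)) :=
  (zsmulAddGroupHom (α := Additive (K1ur B L)) 2).range

/-- `K^1_{M,ur}(X)/2`. -/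
abbrev K1ur2 : Type _ := Additive (K1ur B L) ⧸ twice B L

/-- The induced map `K^1_{M,ur}(X)/2 → I_ur(X)/I²_ur(X)` of the unramified Milnor question. -/
noncomputable def milnor2 : K1ur2 B L →+ Target B L :=
  QuotientAddGroup.lift (twice B L) (milnor B L) (by
    rintro _ ⟨a, rfl⟩
    rw [AddMonoidHom.mem_ker]
    have h : (zsmulAddGroupHom (α := Additive (K1ur B L)) 2) a = a + a := two_zsmul a
    rw [h, map_add, milnor_apply]
    exact mk_pfI_two _)

lemma milnor2_mk (a : Additive (K1ur B L)) :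
    milnor2 B L (QuotientAddGroup.mk a) = QuotientAddGroup.mk (pfI (Additive.toMul a)) := rfl

end W548.MQ.Fin
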