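import Pool.Agent.W548.MQ.Fin3

open WithZero IsDedekindDomain

set_option maxHeartbeats 1000000
set_option linter.overlappingInstances false
set_option linter.unusedSectionVars false

namespace W548.MQ.Fin

universe u w

section par

variable {L : Type u} [Field L] (v : Valuation L ℤᵐ⁰) (π : Lˣ) (hπ : ord v π = 1)

/-- The rank modulo 2 of the second residue. -/
noncomputable def eps : W L →+ ZMod 2 := (rk (κ v)).toAddMonoidHom.comp (res v π hπ)

lemma eps_form (a : Lˣ) : eps v π hπ (form a) = (ord v a : ZMod 2) := by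
  change rk (κ v) (res v π hπ (form a)) = _
  rw [res_form, rk_res1]

lemma ord_mul' (a b : Lˣ) : ord v (a * b) = ord v a + ord v b := by
  unfold ord
  have ha0 : v (a : L) ≠ 0 := (Valuation.ne_zero_iff _).2 a.ne_zero
  have hb0 : v (b : L) ≠ 0 := (Valuation.ne_zero_iff _).2 b.ne_zero
  rw [Units.val_mul, map_mul, log_mul ha0 hb0]
  omega

lemma eps_mul (x y : W L) :
    eps v π hπ (x * y) = rk L x * eps v π hπ y + eps v π hπ x * rk L y := by
  have h1 : ∀ (a : Lˣ) (y : W L),
      eps v π hπ (form a * y) = rk L (form a) * eps v π hπ y + eps v π hπ (form a) * rk L y := by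
    intro a y
    have := hom_ext ((eps v π hπ).comp (AddMonoidHom.mulLeft (form a)))
      ((AddMonoidHom.mulLeft (rk L (form a))).comp (eps v π hπ) +
        (AddMonoidHom.mulLeft (eps v π hπ (form a))).comp (rk L).toAddMonoidHom) (by
        intro b
        change eps v π hπ (form a * form b) =
          rk L (form a) * eps v π hπ (form b) + eps v π hπ (form a) * rk L (form b)
        rw [← form_mul, eps_form, eps_form, eps_form, rk_form, rk_form, ord_mul']
        push_cast; ring)
    exact DFunLike.congr_fun this y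
  have := hom_ext ((eps v π hπ).comp (AddMonoidHom.mulRight y))
      ((AddMonoidHom.mulRight (eps v π hπ y)).comp (rk L).toAddMonoidHom +
        (AddMonoidHom.mulRight (rk L y)).comp (eps v π hπ)) (fun a => h1 a y)
  exact DFunLike.congr_fun this x

lemma eps_I2 (x : W L) (hx : x ∈ (I L) ^ 2) : eps v π hπ x = 0 := by
  rw [I_sq] at hx
  refine Submodule.mul_induction_on hx ?_ ?_
  · intro m hm n hn
    rw [I, RingHom.mem_ker] at hm hn
    rw [eps_mul, hm, hn, zero_mul, mul_zero, add_zero]
  · intro a b ha hb
    rw [map_add, ha, hb, add_zero]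

end par


section dec

variable {L : Type u} [Field L]

lemma I2_le {x : W L} (hx : x ∈ (I L) ^ 2) : rk L x = 0 := by
  rw [I_sq] at hx
  refine Submodule.mul_induction_on hx ?_ ?_
  · intro m hm n _
    rw [I, RingHom.mem_ker] at hm
    rw [map_mul, hm, zero_mul]
  · intro a b ha hb
    rw [map_add, ha, hb, add_zero]

/-- Congruence modulo `I²`. -/
def Cg (x y : W L) : Prop := x - y ∈ (I L) ^ 2

lemma Cg.refl (x : W L) : Cg x x := by
  unfold Cg; rw [sub_self]; exact Ideal.zero_mem _

lemma Cg.symm {x y : W L} (h : Cg x y) : Cg y x := by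
  unfold Cg at *; rw [← neg_sub]; exact (Ideal.neg_mem_iff _).2 h

lemma Cg.trans {x y z : W L} (h : Cg x y) (h' : Cg y z) : Cg x z := by
  unfold Cg at *
  have : x - z = (x - y) + (y - z) := by ring
  rw [this]; exact Ideal.add_mem _ h h'

lemma Cg.add {x y z t : W L} (h : Cg x y) (h' : Cg z t) : Cg (x + z) (y + t) := by
  unfold Cg at *
  have : x + z - (y + t) = (x - y) + (z - t) := by ring
  rw [this]; exact Ideal.add_mem _ h h'

lemma pf_add (a b : Lˣ) : Cg (pf a + pf b : W L) (pf (a * b)) := by
  unfold Cg
  rw [pf_mul]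
  have : (pf a + pf b - (pf a + pf b - pf a * pf b) : W L) = pf a * pf b := by ring
  rw [this]; exact pf_mul_mem _ _

lemma form_cg (a : Lˣ) : Cg (form a : W L) (1 + pf a) := by
  unfold Cg
  have h1 : (form a - (1 + pf a) : W L) = -(pf a + pf a) := by rw [pf_eq]; ring
  rw [h1, pf_add_self]
  exact (Ideal.neg_mem_iff _).2 (pf_mul_mem _ _)

lemma two_eq : (1 + 1 : W L) = pf (-1) := by
  rw [pf_eq, form_neg, form_one]; ring

/-- The two normal forms modulo `I²`. -/
def NF (w : W L) : Prop := (∃ d : Lˣ, Cg w (pf d)) ∨ (∃ d : Lˣ, Cg w (1 + pf d))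

lemma NF.add {x y : W L} (hx : NF x) (hy : NF y) : NF (x + y) := by
  rcases hx with ⟨a, ha⟩ | ⟨a, ha⟩ <;> rcases hy with ⟨b, hb⟩ | ⟨b, hb⟩
  · exact Or.inl ⟨a * b, (ha.add hb).trans (pf_add a b)⟩
  · refine Or.inr ⟨a * b, (ha.add hb).trans ?_⟩
    have : (pf a + (1 + pf b) : W L) = 1 + (pf a + pf b) := by ring
    rw [this]; exact (Cg.refl 1).add (pf_add a b)
  · refine Or.inr ⟨a * b, (ha.add hb).trans ?_⟩
    have : (1 + pf a + pf b : W L) = 1 + (pf a + pf b) := by ring
    rw [this]; exact (Cg.refl 1).add (pf_add a b)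
  · refine Or.inl ⟨-1 * (a * b), (ha.add hb).trans ?_⟩
    have : (1 + pf a + (1 + pf b) : W L) = pf (-1) + (pf a + pf b) := by
      rw [← two_eq]; ring
    rw [this]
    exact ((Cg.refl _).add (pf_add a b)).trans (pf_add (-1) (a * b))

lemma NF.zero : NF (0 : W L) := by
  refine Or.inl ⟨1, ?_⟩
  have : (pf (1 : Lˣ) : W L) = 0 := by rw [pf_eq, form_one, sub_self]
  rw [this]; exact Cg.refl 0

lemma NF.form (a : Lˣ) : NF (form a : W L) := Or.inr ⟨a, form_cg a⟩

lemma NF.zsmul (a : Lˣ) (n : ℤ) : NF (n • (Fin.form a : W L)) := by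
  induction n using Int.induction_on with
  | zero => rw [zero_zsmul]; exact NF.zero
  | succ i ih => rw [add_zsmul, one_zsmul]; exact ih.add (NF.form a)
  | pred i ih =>
    rw [sub_zsmul, one_zsmul, ← form_neg]
    exact ih.add (NF.form _)

lemma NF.all (w : W L) : NF w := by
  obtain ⟨x, hx⟩ := Ideal.Quotient.mk_surjective (I := Ideal.span {x | Rel L x})
    (show W548.MQ.W L from w)
  have key : ∀ x : MonoidAlgebra ℤ Lˣ, NF (show W L from
      (Ideal.Quotient.mk (Ideal.span {x | Rel L x}) x : W548.MQ.W L)) := by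
    intro x
    induction x using MonoidAlgebra.induction_linear with
    | zero =>
      have : (show W L from (Ideal.Quotient.mk (Ideal.span {x | Rel L x}) 0 : W548.MQ.W L)) = 0 :=
        map_zero (Ideal.Quotient.mk (Ideal.span {x | Rel L x}))
      rw [this]; exact NF.zero
    | add x y hx hy =>
      have : (show W L from
          (Ideal.Quotient.mk (Ideal.span {x | Rel L x}) (x + y) : W548.MQ.W L)) =
          (show W L from (Ideal.Quotient.mk (Ideal.span {x | Rel L x}) x : W548.MQ.W L)) +
          (show W L from (Ideal.Quotient.mk (Ideal.span {x | Rel L x}) y : W548.MQ.W L)) :=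
        map_add (Ideal.Quotient.mk (Ideal.span {x | Rel L x})) x y
      rw [this]; exact hx.add hy
    | single a n =>
      have h1 : (MonoidAlgebra.single a n : MonoidAlgebra ℤ Lˣ) = n • e a := by
        rw [e, MonoidAlgebra.smul_single, smul_eq_mul, mul_one]
      have h2 : (show W L from
          (Ideal.Quotient.mk (Ideal.span {x | Rel L x}) (MonoidAlgebra.single a n) :
            W548.MQ.W L)) = n • (Fin.form a : W L) := by
        rw [h1]
        exact map_zsmul (Ideal.Quotient.mk (Ideal.span {x | Rel L x})) n (e a)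
      rw [h2]; exact NF.zsmul a n
  have := key x
  rw [hx] at this
  exact this

theorem t_DEC (L : Type u) [Field L] (x : W L) (hx : x ∈ I L) :
    ∃ d : Lˣ, x - pf d ∈ (I L) ^ 2 := by
  rcases NF.all x with h | ⟨d, hd⟩
  · exact h
  · exfalso
    have h1 := I2_le hd
    rw [I, RingHom.mem_ker] at hx
    rw [map_sub, hx, map_add, map_one, pf, map_add, rk_form, rk_form] at h1
    exact absurd h1 (by decide)


end dec

section disc

variable {L : Type u} [Field L]

/-- The subgroup of squares. -/
def Sq (L : Type u) [Field L] : Subgroup Lˣ := (powMonoidHom (α := Lˣ) 2).range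

/-- The square class group as an additive group. -/
def V (L : Type u) [Field L] : Type u := Additive (Lˣ ⧸ Sq L)

instance : AddCommGroup (V L) := inferInstanceAs (AddCommGroup (Additive (Lˣ ⧸ Sq L)))

/-- The class of a unit. -/
def cl (a : Lˣ) : V L := Additive.ofMul ((a : Lˣ) : Lˣ ⧸ Sq L)

lemma cl_mul (a b : Lˣ) : cl (a * b) = cl a + cl b := rfl

lemma cl_surj (x : V L) : ∃ a : Lˣ, cl a = x := by
  obtain ⟨a, ha⟩ := QuotientGroup.mk_surjective (s := Sq L) (Additive.toMul x)
  exact ⟨a, congrArg Additive.ofMul ha⟩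

lemma cl_eq_zero {a : Lˣ} (h : cl a = 0) : ∃ c : Lˣ, a = c ^ 2 := by
  have h1 : ((a : Lˣ) : Lˣ ⧸ Sq L) = 1 := h
  rw [QuotientGroup.eq_one_iff] at h1
  obtain ⟨c, hc⟩ := h1
  exact ⟨c, hc.symm⟩

lemma cl_sq (a : Lˣ) : cl (a ^ 2) = 0 := by
  have : ((a ^ 2 : Lˣ) : Lˣ ⧸ Sq L) = 1 := by
    rw [QuotientGroup.eq_one_iff]
    exact ⟨a, rfl⟩
  exact this

lemma two_smul_V (x : V L) : (2 : ℕ) • x = 0 := by
  obtain ⟨a, rfl⟩ := cl_surj x
  rw [two_nsmul, ← cl_mul, ← pow_two, cl_sq]

noncomputable instance : Module (ZMod 2) (V L) := AddCommGroup.zmodModule two_smul_V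

/-- Additive characters separate square classes. -/
lemma exists_char (t : Lˣ) (ht : ¬ ∃ c : Lˣ, t = c ^ 2) :
    ∃ lam : Lˣ → ZMod 2, (∀ a b, lam (a * b) = lam a + lam b) ∧ lam t ≠ 0 := by
  have hne : cl t ≠ 0 := fun h => ht (cl_eq_zero h)
  have h2 : ∃ f : Module.Dual (ZMod 2) (V L), f (cl t) ≠ 0 := by
    by_contra h
    push Not at h
    exact hne ((Module.forall_dual_apply_eq_zero_iff (ZMod 2) _).1 h)
  obtain ⟨f, hf⟩ := h2
  refine ⟨fun a => f (cl a), ?_, hf⟩
  intro a b
  change f (cl (a * b)) = _
  rw [cl_mul, map_add]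

/-- `±1` in `ℤ/4` from `ℤ/2`. -/
def sgn (z : ZMod 2) : ZMod 4 := if z = 0 then 1 else 3

lemma sgn_add (x y : ZMod 2) : sgn (x + y) = sgn x * sgn y := by
  revert x y; decide

lemma sgn_rel (x y z : ZMod 2) : sgn x + sgn y = sgn z + sgn (x + y + z) := by
  revert x y z; decide

theorem t_DISC2 (L : Type u) [Field L] (a b : Lˣ) (hab : pf a - pf b ∈ (I L) ^ 2) :
    ∃ c : Lˣ, a = b * c ^ 2 := by
  by_contra hcon
  have ht : ¬ ∃ c : Lˣ, a * b⁻¹ = c ^ 2 := by
    rintro ⟨c, hc⟩
    apply hcon
    refine ⟨c, ?_⟩
    rw [← hc, mul_comm b, inv_mul_cancel_right]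
  obtain ⟨lam, hmul, hlam⟩ := exists_char (a * b⁻¹) ht
  have h1 : lam 1 = 0 := by
    have := hmul 1 1
    rw [mul_one] at this
    simpa using this
  have hinv : ∀ c, lam c⁻¹ = lam c := by
    intro c
    have := hmul c c⁻¹
    rw [mul_inv_cancel, h1] at this
    revert this; generalize lam c = p; generalize lam c⁻¹ = q; revert p q; decide
  have hsq : ∀ c, lam (c ^ 2) = 0 := by
    intro c
    rw [pow_two, hmul]
    generalize lam c = p; revert p; decide
  have hab' : lam a ≠ lam b := by
    intro h
    apply hlam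
    rw [hmul, hinv, h]
    generalize lam b = p; revert p; decide
  have hneg : ∀ c : Lˣ, lam (-c) = lam (-1) + lam c := by
    intro c
    rw [← hmul, neg_mul, one_mul]
  by_cases hm : lam (-1) = 0
  · -- additive case
    obtain ⟨D, hD⟩ := t_LIFT L (ZMod 2) lam
      (fun a b => by rw [hmul, hsq, add_zero])
      (fun a => by
        rw [hneg, hm, zero_add]; generalize lam a = p; revert p; decide)
      (fun a b c _ => by
        rw [hmul, hmul]
        generalize lam a = p; generalize lam b = q; generalize lam c = r; revert p q r; decide)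
    have hDmul : ∀ x y : W L, D (x * y) = rk L x * D y + D x * rk L y := by
      intro x y
      have h1 : ∀ (a : Lˣ) (y : W L),
          D (form a * y) = rk L (form a) * D y + D (form a) * rk L y := by
        intro a y
        have := hom_ext (D.comp (AddMonoidHom.mulLeft (form a)))
          ((AddMonoidHom.mulLeft (rk L (form a))).comp D +
            (AddMonoidHom.mulLeft (D (form a))).comp (rk L).toAddMonoidHom) (by
            intro b
            change D (form a * form b) =
              rk L (form a) * D (form b) + D (form a) * rk L (form b)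
            rw [← form_mul, hD, hD, hD, rk_form, rk_form, hmul]
            ring)
        exact DFunLike.congr_fun this y
      have := hom_ext (D.comp (AddMonoidHom.mulRight y))
          ((AddMonoidHom.mulRight (D y)).comp (rk L).toAddMonoidHom +
            (AddMonoidHom.mulRight (rk L y)).comp D) (fun a => h1 a y)
      exact DFunLike.congr_fun this x
    have hD2 : ∀ x ∈ (I L) ^ 2, D x = 0 := by
      intro x hx
      rw [I_sq] at hx
      refine Submodule.mul_induction_on hx ?_ ?_
      · intro m hm n hn
        rw [I, RingHom.mem_ker] at hm hn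
        rw [hDmul, hm, hn, zero_mul, mul_zero, add_zero]
      · intro a b ha hb
        rw [map_add, ha, hb, add_zero]
    have h3 := hD2 _ hab
    rw [map_sub, pf, pf, map_add, map_add, hD, hD, hD, hneg a, hneg b, hm, zero_add, zero_add] at h3
    apply hab'
    revert h3; generalize lam a = p; generalize lam b = q; generalize lam 1 = r
    revert p q r; decide
  · -- case `χ(-1) = -1`
    have hm1 : lam (-1) = 1 := by
      revert hm; generalize lam (-1) = p; revert p; decide
    obtain ⟨D, hD⟩ := t_LIFT L (ZMod 4) (fun a => sgn (lam a))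
      (fun a b => by
        change sgn (lam (a * b ^ 2)) = sgn (lam a)
        rw [hmul, hsq, add_zero])
      (fun a => by
        change sgn (lam a) + sgn (lam (-a)) = 0
        rw [hneg, hm1]; generalize lam a = p; revert p; decide)
      (fun a b c _ => by
        change sgn (lam a) + sgn (lam b) = sgn (lam c) + sgn (lam (a * b * c))
        rw [hmul, hmul]
        exact sgn_rel _ _ _)
    have hDf : ∀ a, D (form a) = sgn (lam a) := hD
    have hDmul : ∀ x y : W L, D (x * y) = D x * D y := by
      intro x y
      have h1 : ∀ (a : Lˣ) (y : W L), D (form a * y) = D (form a) * D y := by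
        intro a y
        have := hom_ext (D.comp (AddMonoidHom.mulLeft (form a)))
          ((AddMonoidHom.mulLeft (D (form a))).comp D) (by
            intro b
            change D (form a * form b) = D (form a) * D (form b)
            rw [← form_mul, hDf, hDf, hDf, hmul, sgn_add])
        exact DFunLike.congr_fun this y
      have := hom_ext (D.comp (AddMonoidHom.mulRight y))
          ((AddMonoidHom.mulRight (D y)).comp D) (fun a => h1 a y)
      exact DFunLike.congr_fun this x
    have hpar : ∀ x : W L, (ZMod.castHom (show 2 ∣ 4 by norm_num) (ZMod 2)) (D x) = rk L x := by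
      intro x
      have := hom_ext (((ZMod.castHom (show 2 ∣ 4 by norm_num) (ZMod 2)).toAddMonoidHom).comp D)
        (rk L).toAddMonoidHom (by
          intro a
          change (ZMod.castHom (show 2 ∣ 4 by norm_num) (ZMod 2)) (D (form a)) = rk L (form a)
          rw [hDf, rk_form]
          generalize lam a = p; revert p; decide)
      exact DFunLike.congr_fun this x
    have hD2 : ∀ x ∈ (I L) ^ 2, D x = 0 := by
      intro x hx
      rw [I_sq] at hx
      refine Submodule.mul_induction_on hx ?_ ?_
      · intro m hm n hn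
        rw [I, RingHom.mem_ker, ← hpar] at hm hn
        rw [hDmul]
        revert hm hn; generalize D m = p; generalize D n = q; revert p q; decide
      · intro a b ha hb
        rw [map_add, ha, hb, add_zero]
    have h3 := hD2 _ hab
    rw [map_sub, pf, pf, map_add, map_add, hDf, hDf, hDf, hneg a, hneg b, hm1] at h3
    apply hab'
    revert h3; generalize lam a = p; generalize lam b = q; generalize lam 1 = r
    revert p q r; decide


end disc

end W548.MQ.Fin
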