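import Pool.Agent.W548.MQ.Parts

open WithZero IsDedekindDomain

set_option maxHeartbeats 400000
set_option linter.overlappingInstances false

namespace W548.MQ

universe u w

section res

variable {L : Type u} [Field L] (v : Valuation L ℤᵐ⁰) (π : Lˣ) (hπ : ord v π = 1)

theorem exists_res : ∃ r : W L →+ W (κ v), ∀ a, r (form a) = res1 v π hπ a :=
  t_LIFT L (W (κ v)) (res1 v π hπ) (t_R1 L v π hπ).1 (t_R1 L v π hπ).2 (t_R2 L v π hπ)

/-- The second residue homomorphism `W(L) → W(κ(v))` attached to the uniformizer `π`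
(it is determined by its values on one-dimensional forms). -/
noncomputable def res : W L →+ W (κ v) := (exists_res v π hπ).choose

theorem res_form (a : Lˣ) : res v π hπ (form a) = res1 v π hπ a :=
  (exists_res v π hπ).choose_spec a

end res

section ring

variable (B : Type u) [CommRing B] [IsDomain B] [IsDedekindDomain B]
  (L : Type w) [Field L] [Algebra B L] [IsFractionRing B L]

/-- The unramified Witt group `W_ur(X)`, `X = Spec B`, `L = F(X)`: the kernel of all second residue
maps at the points of codimension one. -/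
noncomputable def Wur : AddSubgroup (W L) where
  carrier := {x | ∀ (v : HeightOneSpectrum B) (π : Lˣ) (hπ : ord (v.valuation L) π = 1),
    res (v.valuation L) π hπ x = 0}
  add_mem' := by
    intro a b ha hb v π hπ
    rw [map_add, ha v π hπ, hb v π hπ, add_zero]
  zero_mem' := fun v π hπ => map_zero _
  neg_mem' := by
    intro a ha v π hπ
    rw [map_neg, ha v π hπ, neg_zero]

/-- `I^n_ur(X) = I^n(F(X)) ∩ W_ur(X)`. -/
noncomputable def Iur (n : ℕ) : AddSubgroup (W L) where
  carrier := {x | x ∈ (I L) ^ n ∧ x ∈ Wur B L}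
  add_mem' := fun ha hb => ⟨Ideal.add_mem _ ha.1 hb.1, add_mem ha.2 hb.2⟩
  zero_mem' := ⟨Ideal.zero_mem _, zero_mem _⟩
  neg_mem' := fun ha => ⟨(Ideal.neg_mem_iff _).2 ha.1, neg_mem ha.2⟩

lemma mem_Iur {n : ℕ} {x : W L} : x ∈ Iur B L n ↔ x ∈ (I L) ^ n ∧ x ∈ Wur B L := Iff.rfl

/-- `K^1_{M,ur}(X)`: the kernel of the tame symbols `K^1_M(L) = Lˣ → K^0_M(κ(v)) = ℤ`. -/
noncomputable def K1ur : Subgroup Lˣ where
  carrier := {a | ∀ v : HeightOneSpectrum B, ord (v.valuation L) a = 0}
  mul_mem' := by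
    intro a b ha hb v
    have h1 := ha v
    have h2 := hb v
    unfold ord at *
    have ha0 : v.valuation L (a : L) ≠ 0 := (Valuation.ne_zero_iff _).2 a.ne_zero
    have hb0 : v.valuation L (b : L) ≠ 0 := (Valuation.ne_zero_iff _).2 b.ne_zero
    rw [Units.val_mul, map_mul, log_mul ha0 hb0]
    omega
  one_mem' := by
    intro v
    simp [ord]
  inv_mem' := by
    intro a ha v
    have h1 := ha v
    unfold ord at *
    rw [Units.val_inv_eq_inv_val, map_inv₀, log_inv]
    omega

variable {B L}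

lemma ord_neg (v : Valuation L ℤᵐ⁰) (a : Lˣ) : ord v (-a) = ord v a := by
  simp [ord, Valuation.map_neg]

/-- A form `⟨1, -a⟩` with all orders of `a` even is unramified. -/
lemma pf_mem_Wur (a : Lˣ) (ha : ∀ v : HeightOneSpectrum B, Even (ord (v.valuation L) a)) :
    pf a ∈ Wur B L := by
  intro v π hπ
  have h1 : res1 (v.valuation L) π hπ 1 = 0 := by
    unfold res1
    rw [if_neg]
    simp [ord]
  have h2 : res1 (v.valuation L) π hπ (-a) = 0 := by
    unfold res1
    rw [if_neg]
    rw [ord_neg, Int.not_odd_iff_even]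
    exact ha v
  rw [pf, map_add, res_form, res_form, h1, h2, add_zero]

lemma form_mul (a b : Lˣ) : (form (a * b) : W L) = form a * form b := by
  unfold form e
  rw [← map_mul, MonoidAlgebra.single_mul_single, one_mul]

lemma form_one : (form 1 : W L) = 1 := rfl

lemma form_neg (a : Lˣ) : (form (-a) : W L) = - form a := by
  have h : (form a : W L) + form (-a) = 0 := by
    unfold form
    rw [← map_add]
    exact Ideal.Quotient.eq_zero_iff_mem.2 (Ideal.subset_span (Rel.hyp a))
  exact (neg_eq_of_add_eq_zero_right h).symm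

lemma pf_eq (a : Lˣ) : (pf a : W L) = 1 - form a := by
  rw [pf, form_one, form_neg, sub_eq_add_neg]

lemma rk_form (a : Lˣ) : rk L (form a) = 1 := rk0_e a

lemma pf_mem_I (a : Lˣ) : pf a ∈ I L := by
  rw [I, RingHom.mem_ker, pf, map_add, rk_form, rk_form]
  decide

lemma pf_mul (a b : Lˣ) : (pf (a * b) : W L) = pf a + pf b - pf a * pf b := by
  rw [pf_eq, pf_eq, pf_eq, form_mul]; ring

lemma pf_mem_Iur (a : Lˣ) (ha : ∀ v : HeightOneSpectrum B, Even (ord (v.valuation L) a)) :
    pf a ∈ Iur B L 1 := by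
  rw [mem_Iur, Submodule.pow_one]
  exact ⟨pf_mem_I a, pf_mem_Wur a ha⟩


lemma form_sq (a : Lˣ) : (form a : W L) * form a = 1 := by
  rw [← form_mul, ← form_one]
  have h2 := Ideal.Quotient.eq_zero_iff_mem.2
    (Ideal.subset_span (s := {x | Rel L x}) (Rel.sq (1 : Lˣ) a))
  rw [map_sub, sub_eq_zero, one_mul, pow_two] at h2
  exact h2

lemma pf_add_self (a : Lˣ) : (pf a + pf a : W L) = pf a * pf a := by
  rw [pf_eq]
  have h := form_sq a
  linear_combination (-1 : W L) * h

lemma pf_mul_mem (a b : Lˣ) : (pf a * pf b : W L) ∈ (I L) ^ 2 := by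
  rw [show (2 : ℕ) = 1 + 1 from rfl, Submodule.pow_succ, Submodule.pow_one]
  exact Ideal.mul_mem_mul (pf_mem_I _) (pf_mem_I _)

end ring

end W548.MQ
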