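import Pool.Agent.W548.MQ.Stm

open WithZero IsDedekindDomain

namespace W548.MQ

universe u w

/-- Every element of `I` is congruent to some `⟨1, -d⟩` modulo `I²`. -/
def S_DEC : Prop := ∀ (L : Type u) [Field L] (x : W L), x ∈ I L →
  ∃ d : Lˣ, x - pf d ∈ (I L) ^ 2

/-- The signed discriminant kills `I²`. -/
def S_DISC2 : Prop := ∀ (L : Type u) [Field L] (a b : Lˣ), pf a - pf b ∈ (I L) ^ 2 →
  ∃ c : Lˣ, a = b * c ^ 2

/-- No 2-torsion in the class group: elements with even orders are units times squares. -/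
def S_CL1 : Prop := ∀ (B : Type u) [CommRing B] [IsDomain B] [IsDedekindDomain B]
  (L : Type w) [Field L] [Algebra B L] [IsFractionRing B L],
  (∀ x : ClassGroup B, x ^ 2 = 1 → x = 1) →
  ∀ d : Lˣ, (∀ v : HeightOneSpectrum B, Even (ord (v.valuation L) d)) →
  ∃ (u : Bˣ) (c : Lˣ), (d : L) = algebraMap B L u * (c : L) ^ 2

/-- A class of order two gives an element with even orders which is not a unit times a square. -/
def S_CL2 : Prop := ∀ (B : Type u) [CommRing B] [IsDomain B] [IsDedekindDomain B]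
  (L : Type w) [Field L] [Algebra B L] [IsFractionRing B L] (x : ClassGroup B),
  x ^ 2 = 1 → x ≠ 1 →
  ∃ d : Lˣ, (∀ v : HeightOneSpectrum B, Even (ord (v.valuation L) d)) ∧
    ∀ (u : Bˣ) (c : Lˣ), (d : L) ≠ algebraMap B L u * (c : L) ^ 2

end W548.MQ
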