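import Pool.Agent.W548.MQ.Gen2
import Pool.Agent.W548.MQ.Stm2

open WithZero IsDedekindDomain

set_option maxHeartbeats 400000
set_option linter.overlappingInstances false
set_option linter.unusedSectionVars false

namespace W548.MQ

universe u w

lemma hom_ext {L : Type u} [Field L] {M : Type w} [AddCommGroup M] (f g : W L →+ M)
    (h : ∀ a, f (form a) = g (form a)) : f = g := by
  apply AddMonoidHom.ext
  intro x
  obtain ⟨x, rfl⟩ := Ideal.Quotient.mk_surjective x
  induction x using MonoidAlgebra.induction_linear with
  | zero => rw [map_zero, map_zero, map_zero]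
  | add x y hx hy => rw [map_add, map_add, map_add, hx, hy]
  | single a n =>
    have : (MonoidAlgebra.single a n : MonoidAlgebra ℤ Lˣ) = n • e a := by
      rw [e, MonoidAlgebra.smul_single, smul_eq_mul, mul_one]
    rw [this, map_zsmul, map_zsmul, map_zsmul]
    congr 1
    exact h a

section par

variable {L : Type u} [Field L] (v : Valuation L ℤᵐ⁰) (π : Lˣ) (hπ : ord v π = 1)

/-- The rank modulo 2 of the second residue. -/
noncomputable def eps : W L →+ ZMod 2 := (rk (κ v)).toAddMonoidHom.comp (res v π hπ)

lemma eps_form (a : Lˣ) : eps v π hπ (form a) = (ord v a : ZMod 2) := by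
  change rk (κ v) (res v π hπ (form a)) = _
  rw [res_form]
  unfold res1
  split_ifs with h
  · rw [rk_form]
    obtain ⟨k, hk⟩ := h
    rw [hk]; push_cast
    have : (2 : ZMod 2) = 0 := by decide
    rw [this]; ring
  · rw [map_zero]
    rw [Int.not_odd_iff_even] at h
    obtain ⟨k, hk⟩ := h
    rw [hk]; push_cast
    have : (2 : ZMod 2) = 0 := by decide
    rw [← two_mul, this, zero_mul]

lemma ord_mul' (a b : Lˣ) : ord v (a * b) = ord v a + ord v b := by
  unfold ord
  have ha0 : v (a : L) ≠ 0 := (Valuation.ne_zero_iff _).2 a.ne_zero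
  have hb0 : v (b : L) ≠ 0 := (Valuation.ne_zero_iff _).2 b.ne_zero
  rw [Units.val_mul, map_mul, log_mul ha0 hb0]
  omega

lemma eps_mul (x y : W L) :
    eps v π hπ (x * y) = rk L x * eps v π hπ y + eps v π hπ x * rk L y := by
  have h1 : ∀ (a : Lˣ) (y : W L),
      eps v π hπ (form a * y) = rk L (form a) * eps v π hπ y + eps v π hπ (form a) * rk L y := by
    intro a y
    have := hom_ext ((eps v π hπ).comp (AddMonoidHom.mulLeft (form a)))
      ((AddMonoidHom.mulLeft (rk L (form a))).comp (eps v π hπ) +
        (AddMonoidHom.mulLeft (eps v π hπ (form a))).comp (rk L).toAddMonoidHom) (by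
        intro b
        change eps v π hπ (form a * form b) =
          rk L (form a) * eps v π hπ (form b) + eps v π hπ (form a) * rk L (form b)
        rw [← form_mul, eps_form, eps_form, eps_form, rk_form, rk_form, ord_mul']
        push_cast; ring)
    exact DFunLike.congr_fun this y
  have := hom_ext ((eps v π hπ).comp (AddMonoidHom.mulRight y))
      ((AddMonoidHom.mulRight (eps v π hπ y)).comp (rk L).toAddMonoidHom +
        (AddMonoidHom.mulRight (rk L y)).comp (eps v π hπ)) (fun a => h1 a y)
  exact DFunLike.congr_fun this x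

lemma eps_I2 (x : W L) (hx : x ∈ (I L) ^ 2) : eps v π hπ x = 0 := by
  rw [show (2 : ℕ) = 1 + 1 from rfl, Submodule.pow_succ, Submodule.pow_one] at hx
  refine Submodule.mul_induction_on hx ?_ ?_
  · intro m hm n hn
    rw [I, RingHom.mem_ker] at hm hn
    rw [eps_mul, hm, hn, zero_mul, mul_zero, add_zero]
  · intro a b ha hb
    rw [map_add, ha, hb, add_zero]

end par

end W548.MQ
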