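import Pool.Agent.W548.MQ.Gen3
import Pool.Agent.W548.MQ.Dec
import Pool.Agent.W548.MQ.Disc2
import Pool.Agent.W67.MQ.CL1
import Pool.Agent.W949.MQ.CL2

open WithZero IsDedekindDomain

set_option maxHeartbeats 400000
set_option linter.overlappingInstances false
set_option linter.unusedSectionVars false

namespace W548.MQ

universe u w

theorem t_DEC : S_DEC.{u} := DecBackup.t_DEC
theorem t_DISC2 : S_DISC2.{u} := Disc2Backup.t_DISC2
theorem t_CL1 : S_CL1.{u,w} := Pool.Agent.W67.MQ.t_CL1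
theorem t_CL2 : S_CL2.{u,w} := Pool.Agent.W949.MQ.t_CL2

variable (B : Type u) [CommRing B] [IsDomain B] [IsDedekindDomain B]
  (L : Type w) [Field L] [Algebra B L] [IsFractionRing B L]

/-- If some `f ∈ Lˣ` has even order everywhere but is not a unit times a square, then the map is not
surjective. -/
theorem not_surjective (f : Lˣ) (hf : ∀ v : HeightOneSpectrum B, Even (ord (v.valuation L) f))
    (hsq : ∀ (u : Bˣ) (c : Lˣ), (f : L) ≠ algebraMap B L u * (c : L) ^ 2) :
    ¬ Function.Surjective (milnor2 B L) := by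
  intro hs
  obtain ⟨z, hz⟩ := hs (QuotientAddGroup.mk ⟨pf f, pf_mem_Iur f hf⟩)
  obtain ⟨a, rfl⟩ := QuotientAddGroup.mk_surjective z
  rw [milnor2_mk, mk_eq_iff, coe_pfI] at hz
  obtain ⟨a, ha⟩ : ∃ a' : K1ur B L, Additive.toMul a = a' := ⟨_, rfl⟩
  rw [ha] at hz
  obtain ⟨u, hu⟩ := t_UNIT B L (a : Lˣ) a.2
  obtain ⟨c, hc⟩ := t_DISC2 L f (a : Lˣ) hz
  apply hsq u c
  rw [hu, hc]; simp


lemma pf_one : (pf (1 : Lˣ) : W L) = 0 := by rw [pf_eq, form_one, sub_self]

lemma form_mul_sq (a c : Lˣ) : (form (a * c ^ 2) : W L) = form a := by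
  have h2 := Ideal.Quotient.eq_zero_iff_mem.2
    (Ideal.subset_span (s := {x | Rel L x}) (Rel.sq a c))
  rw [map_sub, sub_eq_zero] at h2
  exact h2

lemma pf_mul_sq (a c : Lˣ) : (pf (a * c ^ 2) : W L) = pf a := by
  rw [pf_eq, pf_eq, form_mul_sq]

lemma ord_sq (v : Valuation L ℤᵐ⁰) (c : Lˣ) : ord v (c ^ 2) = 2 * ord v c := by
  rw [pow_two, ord_mul', two_mul]

/-- The map `K^1_{M,ur}(X)/2 → I_ur(X)/I²_ur(X)` is injective. -/
theorem milnor2_injective : Function.Injective (milnor2 B L) := by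
  rw [injective_iff_map_eq_zero]
  intro z hz
  obtain ⟨a, rfl⟩ := QuotientAddGroup.mk_surjective z
  rw [milnor2_mk] at hz
  obtain ⟨a, rfl⟩ : ∃ a' : K1ur B L, Additive.ofMul a' = a := ⟨Additive.toMul a, rfl⟩
  change (QuotientAddGroup.mk (pfI a) : Target B L) = 0 at hz
  rw [← QuotientAddGroup.mk_zero, Eq.comm, mk_eq_iff, AddSubgroup.coe_zero, coe_pfI] at hz
  rw [← pf_one L] at hz
  obtain ⟨c, hc⟩ := t_DISC2 L (a : Lˣ) 1 hz
  rw [one_mul] at hc
  have hcK : c ∈ K1ur B L := by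
    intro v
    have h1 : ord (v.valuation L) (a : Lˣ) = 0 := a.2 v
    rw [hc, ord_sq] at h1
    omega
  rw [QuotientAddGroup.eq_zero_iff]
  refine ⟨Additive.ofMul ⟨c, hcK⟩, ?_⟩
  have h : (zsmulAddGroupHom (α := Additive (K1ur B L)) 2) (Additive.ofMul ⟨c, hcK⟩) =
    Additive.ofMul ⟨c, hcK⟩ + Additive.ofMul ⟨c, hcK⟩ := two_zsmul _
  rw [h, ← ofMul_mul]
  congr 1
  apply Subtype.ext
  rw [Subgroup.coe_mul, hc, pow_two]

/-- Orders of the discriminant of an unramified form are even. -/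
lemma even_of_unramified (x : W L) (hx : x ∈ Wur B L) (d : Lˣ) (hd : x - pf d ∈ (I L) ^ 2)
    (v : HeightOneSpectrum B) : Even (ord (v.valuation L) d) := by
  obtain ⟨π, hπ⟩ := v.valuation_exists_uniformizer L
  have hπ0 : π ≠ 0 := by
    rintro rfl
    rw [map_zero] at hπ
    exact WithZero.zero_ne_coe hπ
  have hord : ord (v.valuation L) (Units.mk0 π hπ0) = 1 := by
    unfold ord
    rw [Units.val_mk0, hπ]
    rfl
  have h1 := eps_I2 (v.valuation L) (Units.mk0 π hπ0) hord _ hd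
  have h2 : eps (v.valuation L) (Units.mk0 π hπ0) hord x = 0 := by
    change rk _ (res _ _ _ x) = 0
    rw [hx v (Units.mk0 π hπ0) hord, map_zero]
  rw [map_sub, h2, zero_sub, neg_eq_zero, pf, map_add, eps_form, eps_form, ord_neg] at h1
  have h3 : ord (v.valuation L) (1 : Lˣ) = 0 := by simp [ord]
  rw [h3, Int.cast_zero, zero_add] at h1
  rw [ZMod.intCast_zmod_eq_zero_iff_dvd] at h1 
  exact (even_iff_two_dvd).2 (by exact_mod_cast h1)

/-- The map `K^1_{M,ur}(X)/2 → I_ur(X)/I²_ur(X)` is surjective exactly when `Pic(X)` has no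
2-torsion. -/
theorem milnor2_surjective_iff :
    Function.Surjective (milnor2 B L) ↔ ∀ x : ClassGroup B, x ^ 2 = 1 → x = 1 := by
  constructor
  · intro hs x hx
    by_contra hne
    obtain ⟨d, hd, hd'⟩ := t_CL2 B L x hx hne
    exact not_surjective B L d hd hd' hs
  · intro hcl y
    obtain ⟨p, rfl⟩ := QuotientAddGroup.mk_surjective y
    have hp := (mem_Iur B L).1 p.2
    rw [Submodule.pow_one] at hp
    obtain ⟨d, hd⟩ := t_DEC L (p : W L) hp.1
    obtain ⟨u, c, huc⟩ := t_CL1 B L hcl d (even_of_unramified B L _ hp.2 d hd)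
    have huL : (Units.map (algebraMap B L).toMonoidHom u : Lˣ) ∈ K1ur B L := by
      intro v
      have h1 : v.valuation L (algebraMap B L (u : B)) = 1 := by
        have h2 : v.valuation L (algebraMap B L (u : B)) ≤ 1 := v.valuation_le_one _
        have h3 : v.valuation L (algebraMap B L ((u⁻¹ : Bˣ) : B)) ≤ 1 := v.valuation_le_one _
        have h4 : v.valuation L (algebraMap B L (u : B)) *
            v.valuation L (algebraMap B L ((u⁻¹ : Bˣ) : B)) = 1 := by
          rw [← map_mul, ← map_mul, Units.mul_inv, map_one, map_one]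
        refine le_antisymm h2 ?_
        calc (1 : ℤᵐ⁰) = _ := h4.symm
          _ ≤ v.valuation L (algebraMap B L (u : B)) * 1 := by gcongr
          _ = _ := mul_one _
      unfold ord
      change -log (v.valuation L (algebraMap B L (u : B))) = 0
      rw [h1, log_one, neg_zero]
    refine ⟨QuotientAddGroup.mk (Additive.ofMul ⟨_, huL⟩), ?_⟩
    rw [milnor2_mk, mk_eq_iff]
    have hdu : d = Units.map (algebraMap B L).toMonoidHom u * c ^ 2 := by
      apply Units.ext
      rw [huc]; rfl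
    rw [hdu, pf_mul_sq] at hd
    exact hd

end W548.MQ
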