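import Pool.Agent.W548.MQ.Stm

set_option maxHeartbeats 400000

namespace W548.MQ.LiftBackup

universe u w

theorem t_LIFT : S_LIFT.{u,w} := by
  intro L _ M _ g h1 h2 h3
  -- the additive extension of `g`
  let r0 : MonoidAlgebra ℤ Lˣ →+ M :=
    { toFun := fun x => Finsupp.liftAddHom (fun a => (zmultiplesHom M (g a))) x.coeff
      map_zero' := by rw [MonoidAlgebra.coeff_zero, map_zero]
      map_add' := by intro x y; rw [MonoidAlgebra.coeff_add, map_add] }
  have hr0 : ∀ (a : Lˣ) (n : ℤ), r0 (MonoidAlgebra.single a n) = n • g a := by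
    intro a n
    change Finsupp.liftAddHom (fun a => (zmultiplesHom M (g a))) (Finsupp.single a n) = _
    rw [Finsupp.liftAddHom_apply_single, zmultiplesHom_apply]
  have hre : ∀ a : Lˣ, r0 (e a) = g a := by
    intro a; rw [e, hr0, one_zsmul]
  have hmul : ∀ (d a : Lˣ) (n : ℤ), MonoidAlgebra.single d n * e a = n • (e (d * a) : MonoidAlgebra ℤ Lˣ) := by
    intro d a n
    rw [e, e, MonoidAlgebra.single_mul_single, MonoidAlgebra.smul_single, smul_eq_mul]
  have hrel : ∀ y, Rel L y → ∀ c : MonoidAlgebra ℤ Lˣ, r0 (c * y) = 0 := by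
    intro y hy c
    induction c using MonoidAlgebra.induction_linear with
    | zero => rw [zero_mul, map_zero]
    | add x z hx hz => rw [add_mul, map_add, hx, hz, add_zero]
    | single d n =>
      rcases hy with ⟨a, b⟩ | ⟨a⟩ | ⟨a, b, c, h⟩
      · rw [mul_sub, hmul, hmul, map_sub, map_zsmul, map_zsmul, hre, hre, ← mul_assoc, h1, sub_self]
      · rw [mul_add, hmul, hmul, map_add, map_zsmul, map_zsmul, hre, hre, ← zsmul_add, mul_neg, h2,
          zsmul_zero]
      · rw [mul_sub, mul_sub, mul_add, hmul, hmul, hmul, hmul, map_sub, map_sub, map_add, map_zsmul,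
          map_zsmul, map_zsmul, map_zsmul, hre, hre, hre, hre]
        have h4 : ((d * a : Lˣ) : L) + ((d * b : Lˣ) : L) = ((d * c : Lˣ) : L) := by
          push_cast; rw [← h]; ring
        have h5 := h3 _ _ _ h4
        have h6 : d * a * (d * b) * (d * c) = d * (a * b * c) * d ^ 2 := by
          apply Units.ext; push_cast; ring
        rw [h6, h1] at h5
        rw [← zsmul_add, h5, zsmul_add]
        abel
  have hker : ∀ y ∈ Ideal.span {x | Rel L x}, r0 y = 0 := by
    intro y hy
    have : ∀ c : MonoidAlgebra ℤ Lˣ, r0 (c * y) = 0 := by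
      refine Submodule.span_induction (p := fun y _ => ∀ c : MonoidAlgebra ℤ Lˣ, r0 (c * y) = 0)
        ?_ ?_ ?_ ?_ hy
      · exact fun x hx => hrel x hx
      · intro c; rw [mul_zero, map_zero]
      · intro x y _ _ hx hy c; rw [mul_add, map_add, hx, hy, add_zero]
      · intro a x _ hx c
        rw [smul_eq_mul, ← mul_assoc]; exact hx _
    simpa using this 1
  refine ⟨QuotientAddGroup.lift _ r0 (by
    intro y hy
    exact hker y hy), fun a => hre a⟩

end W548.MQ.LiftBackup
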