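import Pool.Agent.W548.MQ.Stm

set_option maxHeartbeats 400000

open Polynomial

namespace W548.MQ.NsqBackup

lemma P_monic : (P : ℚ[X][X]).Monic := by
  unfold P
  exact monic_X_pow_sub_C _ (by norm_num)

lemma of_injective : Function.Injective (AdjoinRoot.of P) := by
  apply AdjoinRoot.of.injective_of_degree_ne_zero
  unfold P
  rw [degree_X_pow_sub_C (by norm_num)]
  norm_num

lemma rep (a : A) : ∃ p q : ℚ[X], a = AdjoinRoot.of P p + AdjoinRoot.of P q * y := by
  obtain ⟨f, rfl⟩ := AdjoinRoot.mk_surjective a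
  have hdeg : (f %ₘ P).natDegree < 2 := by
    have h1 := natDegree_modByMonic_lt f P_monic (by
      intro h
      have h2 : (P : ℚ[X][X]).natDegree = 2 := by unfold P; rw [natDegree_X_pow_sub_C]
      rw [h] at h2
      simp at h2)
    have h2 : (P : ℚ[X][X]).natDegree = 2 := by unfold P; rw [natDegree_X_pow_sub_C]
    omega
  have h3 : f %ₘ P = C ((f %ₘ P).coeff 1) * X + C ((f %ₘ P).coeff 0) :=
    eq_X_add_C_of_natDegree_le_one (by omega)
  have h4 : AdjoinRoot.mk P f = AdjoinRoot.mk P (f %ₘ P) := by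
    conv_lhs => rw [← modByMonic_add_div f (q := P)]
    rw [map_add, map_mul, AdjoinRoot.mk_self, zero_mul, add_zero]
  refine ⟨(f %ₘ P).coeff 0, (f %ₘ P).coeff 1, ?_⟩
  rw [h4]
  conv_lhs => rw [h3]
  rw [map_add, map_mul, AdjoinRoot.mk_X, AdjoinRoot.mk_C, AdjoinRoot.mk_C, add_comm]
  rfl

lemma y_sq : y * y = AdjoinRoot.of P (1 - X ^ 2) := by
  have := circle
  rw [map_sub, map_one, map_pow]
  change y * y = 1 - x ^ 2
  linear_combination this

/-- The conjugation `y ↦ -y`. -/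
noncomputable def σ : A →+* A :=
  AdjoinRoot.lift (AdjoinRoot.of P) (-y) (by
    have h := y_sq
    have e1 : eval₂ (AdjoinRoot.of P) (-y) P = (-y) ^ 2 - AdjoinRoot.of P (1 - X ^ 2) := by
      conv_lhs => arg 3; unfold P
      rw [eval₂_sub, eval₂_pow, eval₂_X, eval₂_C]
    rw [e1]
    linear_combination h)

lemma σ_of (p : ℚ[X]) : σ (AdjoinRoot.of P p) = AdjoinRoot.of P p := by
  simp [σ]

lemma σ_y : σ y = - y := by
  unfold σ y
  exact AdjoinRoot.lift_root _

lemma norm_rep (p q : ℚ[X]) :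
    (AdjoinRoot.of P p + AdjoinRoot.of P q * y) * σ (AdjoinRoot.of P p + AdjoinRoot.of P q * y) =
      AdjoinRoot.of P (p ^ 2 + q ^ 2 * (X ^ 2 - 1)) := by
  rw [map_add, map_mul, σ_of, σ_of, σ_y]
  have h := y_sq
  simp only [map_add, map_mul, map_sub, map_pow, map_one] at h ⊢
  linear_combination (-(AdjoinRoot.of P q) ^ 2) * h

lemma natDegree_ne_one (p q : ℚ[X]) : (p ^ 2 + q ^ 2 * (X ^ 2 - 1)).natDegree ≠ 1 := by
  intro h1
  have hm : (X ^ 2 - 1 : ℚ[X]).Monic := by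
    simpa using monic_X_pow_sub_C (1 : ℚ) (n := 2) (by norm_num)
  have hd : (X ^ 2 - 1 : ℚ[X]).natDegree = 2 := by
    simpa using natDegree_X_pow_sub_C (n := 2) (r := (1 : ℚ))
  by_cases hq : q = 0
  · subst hq
    have : (p ^ 2).natDegree = 1 := by simpa using h1
    rw [natDegree_pow] at this
    omega
  have hb : (q ^ 2 * (X ^ 2 - 1)).natDegree = 2 * q.natDegree + 2 := by
    rw [natDegree_mul (pow_ne_zero 2 hq) hm.ne_zero, natDegree_pow, hd]
  have ha : (p ^ 2).natDegree = 2 * p.natDegree := natDegree_pow p 2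
  rcases lt_trichotomy (p ^ 2).natDegree (q ^ 2 * (X ^ 2 - 1)).natDegree with hlt | heq | hgt
  · rw [natDegree_add_eq_right_of_natDegree_lt hlt] at h1
    omega
  · -- leading coefficients are positive
    have hc : (p ^ 2 + q ^ 2 * (X ^ 2 - 1)).coeff (p ^ 2).natDegree ≠ 0 := by
      rw [coeff_add, coeff_natDegree]
      have h2 : (q ^ 2 * (X ^ 2 - 1)).coeff (p ^ 2).natDegree = q.leadingCoeff ^ 2 := by
        rw [heq, coeff_natDegree, leadingCoeff_mul, hm.leadingCoeff, leadingCoeff_pow, mul_one]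
      rw [h2, leadingCoeff_pow]
      have h3 : q.leadingCoeff ≠ 0 := leadingCoeff_ne_zero.2 hq
      positivity
    have := le_natDegree_of_ne_zero hc
    have hle : (p ^ 2 + q ^ 2 * (X ^ 2 - 1)).natDegree ≤ (p ^ 2).natDegree := by
      refine (natDegree_add_le _ _).trans ?_
      rw [heq, max_self]
    omega
  · rw [natDegree_add_eq_left_of_natDegree_lt hgt] at h1
    omega

theorem t_NSQ : S_NSQ := by
  intro u h hu
  obtain ⟨p, q, hpq⟩ := rep h
  obtain ⟨a, b, hab⟩ := rep (u : A)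
  obtain ⟨a', b', hab'⟩ := rep ((u⁻¹ : Aˣ) : A)
  have h1 : (1 + x) * σ (1 + x) = ((u : A) * σ u) * (h * σ h) ^ 2 := by
    rw [hu, map_mul, map_pow]; ring
  have h2 : (1 + x : A) = AdjoinRoot.of P (1 + X) := by
    rw [map_add, map_one]; rfl
  rw [h2, σ_of, hpq, norm_rep, hab, norm_rep, ← map_mul, ← map_pow, ← map_mul] at h1
  have h3 := of_injective h1
  have h4 : ((u : A) * σ u) * (((u⁻¹ : Aˣ) : A) * σ ((u⁻¹ : Aˣ) : A)) = 1 := by
    have : ((u : A) * σ u) * (((u⁻¹ : Aˣ) : A) * σ ((u⁻¹ : Aˣ) : A)) =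
      ((u : A) * ((u⁻¹ : Aˣ) : A)) * σ ((u : A) * ((u⁻¹ : Aˣ) : A)) := by rw [map_mul]; ring
    rw [this, Units.mul_inv, map_one, one_mul]
  rw [hab, hab', norm_rep, norm_rep, ← map_mul, ← map_one (AdjoinRoot.of P)] at h4
  have h5 := of_injective h4
  have hunit : IsUnit (a ^ 2 + b ^ 2 * (X ^ 2 - 1)) := IsUnit.of_mul_eq_one _ h5
  have hdeg0 := natDegree_eq_zero_of_isUnit hunit
  have h6 : ((1 + X : ℚ[X]) * (1 + X)).natDegree = 2 := by
    have h7 : (1 + X : ℚ[X]) = X + C 1 := by rw [map_one, add_comm]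
    rw [h7, natDegree_mul (X_add_C_ne_zero _) (X_add_C_ne_zero _), natDegree_X_add_C]
  have hN0 : (p ^ 2 + q ^ 2 * (X ^ 2 - 1)) ≠ 0 := by
    intro h0
    rw [h0] at h3
    rw [h3] at h6
    simp at h6
  rw [h3, natDegree_mul hunit.ne_zero (pow_ne_zero 2 hN0), hdeg0, natDegree_pow] at h6
  exact natDegree_ne_one p q (by omega)

end W548.MQ.NsqBackup
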