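import Pool.Agent.W548.MQ.Lift
import Pool.Agent.W548.MQ.Nsq
import Pool.Agent.W577.MQ.R1
import Pool.Agent.W289.MQ.R2
import Pool.Agent.W110.MQ.UNIT
import Pool.Agent.W62.MQ.DOM
import Pool.Agent.W692.MQ.Noe
import Pool.Agent.W991.MQ.IC
import Pool.Agent.W897.MQ.SM
import Pool.Agent.W700.MQ.EVEN

/-! The parts of project MQ, proved by different seats, under common names. -/

namespace W548.MQ
universe u w
theorem t_LIFT : S_LIFT.{u,w} := LiftBackup.t_LIFT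
theorem t_R1 : S_R1.{u} := Pool.Agent.W577.MQ.t_R1
theorem t_R2 : S_R2.{u} := _root_.W289.MQ.t_R2
theorem t_UNIT : S_UNIT.{u,w} := Pool.Agent.W110.MQ.t_UNIT
theorem t_DOM : S_DOM := Pool.Agent.W62.MQ.DOM.t_DOM
theorem t_NOE : S_NOE := Pool.Agent.W692.MQ.t_NOE t_DOM.1
theorem t_IC : S_IC := Pool.Agent.W991.MQ.t_IC t_DOM.1
theorem t_SM : S_SM := _root_.W897.MQ.t_SM
theorem t_NSQ : S_NSQ := NsqBackup.t_NSQ
theorem t_EVEN : S_EVEN := Pool.Agent.W700.MQ.t_EVEN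
end W548.MQ
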