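import Pool.Agent.W548.MQ.Defs

open WithZero IsDedekindDomain

namespace W548.MQ

universe u w

/-- A function on `Lˣ` satisfying the three Witt relations extends to the Witt ring. -/
def S_LIFT : Prop := ∀ (L : Type u) [Field L] (M : Type w) [AddCommGroup M] (g : Lˣ → M),
  (∀ a b, g (a * b ^ 2) = g a) → (∀ a, g a + g (-a) = 0) →
  (∀ a b c : Lˣ, (a : L) + b = c → g a + g b = g c + g (a * b * c)) →
  ∃ r : W L →+ M, ∀ a, r (form a) = g a

/-- The second residue respects the first two relations. -/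
def S_R1 : Prop := ∀ (L : Type u) [Field L] (v : Valuation L ℤᵐ⁰) (π : Lˣ) (hπ : ord v π = 1),
  (∀ a b, res1 v π hπ (a * b ^ 2) = res1 v π hπ a) ∧
  (∀ a, res1 v π hπ a + res1 v π hπ (-a) = 0)

/-- The second residue respects the third relation. -/
def S_R2 : Prop := ∀ (L : Type u) [Field L] (v : Valuation L ℤᵐ⁰) (π : Lˣ) (hπ : ord v π = 1)
  (a b c : Lˣ), (a : L) + b = c →
  res1 v π hπ a + res1 v π hπ b = res1 v π hπ c + res1 v π hπ (a * b * c)

/-- The signed discriminant modulo sign kills `I²`. -/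
def S_DISC : Prop := ∀ (L : Type u) [Field L] (a b : Lˣ), pf a - pf b ∈ (I L) ^ 2 →
  ∃ c : Lˣ, a = b * c ^ 2 ∨ a = -(b * c ^ 2)

/-- Units of the fraction field of a Dedekind domain without zeros and poles. -/
def S_UNIT : Prop := ∀ (B : Type u) [CommRing B] [IsDomain B] [IsDedekindDomain B]
  (L : Type w) [Field L] [Algebra B L] [IsFractionRing B L] (a : Lˣ),
  (∀ v : HeightOneSpectrum B, ord (v.valuation L) a = 0) →
  ∃ u : Bˣ, algebraMap B L u = a

def S_DOM : Prop := IsDomain A ∧ ¬ IsField A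

def S_NOE : Prop := IsNoetherianRing A ∧ Ring.DimensionLEOne A

def S_IC : Prop := IsIntegrallyClosed A

def S_SM : Prop := Algebra.Smooth ℚ A

/-- `1 + x` is not a unit times a square. -/
def S_NSQ : Prop := ∀ (u : Aˣ) (h : A), 1 + x ≠ u * h ^ 2

/-- `1 + x` has even order everywhere: `(1 + x)(1 - x) = y²` and `1 + x`, `1 - x` are comaximal. -/
def S_EVEN : Prop := ∀ [IsDomain A] [IsDedekindDomain A] (v : HeightOneSpectrum A)
  (L : Type) [Field L] [Algebra A L] [IsFractionRing A L] (f : Lˣ),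
  (f : L) = algebraMap A L (1 + x) → Even (ord (v.valuation L) f)

end W548.MQ
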